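import Pool.Agent.TH188.ET.Cor

set_option autoImplicit false
set_option linter.all false

/-! Counting quaternions -/

namespace Pool.Agent.Q120.EQ

open Pool.Agent.H315R3.ETC Pool.Agent.TH188.ETV

universe v w

section lin

variable {B : Type v} [AddCommGroup B]

theorem pow_two_card (hB : ∀ b : B, b + b = 0) (H : AddSubgroup B) (hf : Finite H) :
    ∃ k, Nat.card H = 2 ^ k := by
  have hp : Fact (Nat.Prime 2) := ⟨Nat.prime_two⟩
  let _ : Module (ZMod 2) H := AddCommGroup.zmodModule (n := 2) (by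
    intro x
    rw [two_smul]
    exact Subtype.ext (hB x))
  refine ⟨Module.finrank (ZMod 2) H, ?_⟩
  have := Module.natCard_eq_pow_finrank (K := ZMod 2) (V := H)
  rw [this, Nat.card_zmod]

theorem two_mul_card {H K : AddSubgroup B} (hf : Finite K) (h : H ≤ K) {u : B} (hu : u ∈ K)
    (hu' : u ∉ H) : 2 * Nat.card H ≤ Nat.card K := by
  obtain ⟨k, hk⟩ := AddSubgroup.card_dvd_of_le h
  have hfH : Finite H := Finite.of_injective _ (AddSubgroup.inclusion_injective h)
  have hpos : 0 < Nat.card K := Nat.card_pos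
  rcases k with _ | _ | k
  · rw [hk] at hpos; simp at hpos
  · exfalso
    have : H = K := AddSubgroup.eq_of_le_of_card_ge h (by rw [hk]; omega)
    rw [this] at hu'
    exact hu' hu
  · rw [hk]
    nlinarith [Nat.zero_le (Nat.card H * k)]

theorem mem_sup_zm (hB : ∀ b : B, b + b = 0) (H : AddSubgroup B) (u v : B)
    (h : v ∈ H ⊔ AddSubgroup.zmultiples u) : v ∈ H ∨ u + v ∈ H := by
  rw [AddSubgroup.mem_sup] at h
  obtain ⟨y, hy, z, hz, rfl⟩ := h
  rw [AddSubgroup.mem_zmultiples_iff] at hz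
  obtain ⟨k, rfl⟩ := hz
  have h2 : (2 : ℤ) • u = 0 := by rw [two_zsmul]; exact hB u
  rcases Int.even_or_odd' k with ⟨j, rfl | rfl⟩
  · left
    rw [mul_comm, mul_zsmul, h2, zsmul_zero, add_zero]
    exact hy
  · right
    rw [add_zsmul, mul_comm, mul_zsmul, h2, zsmul_zero, zero_add, one_zsmul, add_comm y, ← add_assoc,
      hB, zero_add]
    exact hy

theorem four_mul_card (hB : ∀ b : B, b + b = 0) {H K : AddSubgroup B} (hf : Finite K) (h : H ≤ K)
    {u v : B} (hu : u ∈ K) (hv : v ∈ K) (hu' : u ∉ H) (hv' : v ∉ H) (huv : u + v ∉ H) :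
    4 * Nat.card H ≤ Nat.card K := by
  have h1 : H ⊔ AddSubgroup.zmultiples u ≤ K :=
    sup_le h (by rw [AddSubgroup.zmultiples_le]; exact hu)
  have hf' : Finite (H ⊔ AddSubgroup.zmultiples u : AddSubgroup B) :=
    Finite.of_injective _ (AddSubgroup.inclusion_injective h1)
  have h2 := two_mul_card hf' (le_sup_left : H ≤ H ⊔ AddSubgroup.zmultiples u)
    (AddSubgroup.mem_sup_right (AddSubgroup.mem_zmultiples u)) hu'
  have h3 := two_mul_card hf h1 hv (fun hc => by
    rcases mem_sup_zm hB H u v hc with h | h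
    · exact hv' h
    · exact huv h)
  omega

theorem count3 (X P R : AddSubgroup B) (hfX : Finite X) (hfP : Finite P) (hfR : Finite R)
    (Q : Set B) (hQ : Q.Finite)
    (hX : (X : Set B) ⊆ Q) (hP : (P : Set B) ⊆ Q) (hR : (R : Set B) ⊆ Q) :
    Nat.card X + Nat.card P + Nat.card R + 1 ≤ Q.ncard + Nat.card (X ⊓ P : AddSubgroup B) +
      Nat.card (X ⊓ R : AddSubgroup B) + Nat.card (P ⊓ R : AddSubgroup B) := by
  have e : ∀ H : AddSubgroup B, Nat.card H = (H : Set B).ncard := fun H => rfl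
  simp only [e, AddSubgroup.coe_inf]
  have fX : (X : Set B).Finite := Set.toFinite _
  have fP : (P : Set B).Finite := Set.toFinite _
  have fR : (R : Set B).Finite := Set.toFinite _
  have h1 := Set.ncard_union_add_ncard_inter (X : Set B) (P : Set B) fX fP
  have h2 := Set.ncard_union_add_ncard_inter ((X : Set B) ∪ P) (R : Set B) (fX.union fP) fR
  have h3 : ((X : Set B) ∪ P) ∩ R = ((X : Set B) ∩ R) ∪ ((P : Set B) ∩ R) :=
    Set.union_inter_distrib_right _ _ _
  have h4 := Set.ncard_union_add_ncard_inter ((X : Set B) ∩ R) ((P : Set B) ∩ R)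
    (fX.inter_of_left _) (fP.inter_of_left _)
  have h5 : 1 ≤ (((X : Set B) ∩ R) ∩ ((P : Set B) ∩ R)).ncard := by
    rw [Nat.one_le_iff_ne_zero, Ne, Set.ncard_eq_zero ((fX.inter_of_left _).inter_of_left _)]
    intro h
    have : (0 : B) ∈ (∅ : Set B) := by
      rw [← h]
      exact ⟨⟨X.zero_mem, R.zero_mem⟩, ⟨P.zero_mem, R.zero_mem⟩⟩
    exact this
  have h6 : (((X : Set B) ∪ P) ∪ R).ncard ≤ Q.ncard :=
    Set.ncard_le_ncard (Set.union_subset (Set.union_subset hX hP) hR) hQ
  rw [h3] at h2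
  omega

end lin

/-- the situation -/
structure Rows {G : Type w} [CommGroup G] {B : Type v} [AddCommGroup B] (e : G) (β : G → G → B) :
    Prop where
  hB : ∀ b : B, b + b = 0
  exp : ∀ a : G, a * a = 1
  mul : ∀ a b c, β a (b * c) = β a b + β a c
  sym : ∀ a b, β a b = β b a
  neg : ∀ a, β a (e * a) = 0
  link : ∀ a b c d, β a b = β c d → ∃ y, β a b = β a y ∧ β c d = β c y

section rows

variable {G : Type w} [CommGroup G] {B : Type v} [AddCommGroup B] {e : G} {β : G → G → B}

theorem Rows.mul' (h : Rows e β) (a b c : G) : β (a * b) c = β a c + β b c := by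
  rw [h.sym, h.mul, h.sym c, h.sym c]

theorem Rows.one (h : Rows e β) (a : G) : β a 1 = 0 := by
  have := h.mul a 1 1
  rw [mul_one] at this
  exact left_eq_add.1 this

/-- the homomorphism `β a` -/
def Rows.hom (h : Rows e β) (a : G) : Additive G →+ B :=
  AddMonoidHom.mk' (fun b => β a b.toMul) (fun b c => h.mul _ _ _)

theorem Rows.hom_apply (h : Rows e β) (a : G) (b : Additive G) : h.hom a b = β a b.toMul := rfl

/-- values -/
def Rows.R (h : Rows e β) (a : G) : AddSubgroup B := (h.hom a).range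

/-- zeros -/
def Rows.V (h : Rows e β) (a : G) : AddSubgroup (Additive G) := (h.hom a).ker

theorem Rows.mem_R (h : Rows e β) (a : G) (t : B) : t ∈ h.R a ↔ ∃ b, β a b = t :=
  ⟨fun ⟨b, hb⟩ => ⟨b.toMul, hb⟩, fun ⟨b, hb⟩ => ⟨Additive.ofMul b, hb⟩⟩

theorem Rows.mem_R' (h : Rows e β) (a b : G) : β a b ∈ h.R a := (h.mem_R a _).2 ⟨b, rfl⟩

theorem Rows.mem_V (h : Rows e β) (a : G) (t : Additive G) : t ∈ h.V a ↔ β a t.toMul = 0 := Iff.rfl

theorem Rows.R_eq_Qs (h : Rows e β) (a : G) : h.R a = Qs β a := by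
  unfold Qs Rows.R
  apply le_antisymm
  · rintro _ ⟨b, rfl⟩
    exact AddSubgroup.subset_closure ⟨b.toMul, rfl⟩
  · rw [AddSubgroup.closure_le]
    rintro _ ⟨b, rfl⟩
    exact ⟨Additive.ofMul b, rfl⟩

variable [Finite G]

instance (h : Rows e β) (a : G) : Finite (h.R a) := by
  have : Finite (Additive G) := ‹Finite G›
  unfold Rows.R
  exact Finite.of_surjective _ (h.hom a).rangeRestrict_surjective

theorem Rows.card1 (h : Rows e β) (a : G) : Nat.card (h.V a) * Nat.card (h.R a) = Nat.card G := by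
  have h1 := (h.hom a).ker.card_mul_index
  rw [AddSubgroup.index_ker] at h1
  exact h1

theorem Rows.card2 (h : Rows e β) (a b : G) :
    Nat.card (h.V a ⊓ h.V b : AddSubgroup _) * Nat.card (h.R a ⊓ h.R b : AddSubgroup B) =
      Nat.card (h.V (a * b)) := by
  let f : h.V (a * b) →+ B := (h.hom a).comp (h.V (a * b)).subtype
  have h1 := f.ker.card_mul_index
  rw [AddSubgroup.index_ker] at h1
  have hr : f.range = h.R a ⊓ h.R b := by
    ext t
    constructor
    · rintro ⟨⟨y, hy⟩, rfl⟩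
      have hy' : β (a * b) y.toMul = 0 := hy
      rw [h.mul'] at hy'
      refine ⟨h.mem_R' a y.toMul, (h.mem_R b _).2 ⟨y.toMul, ?_⟩⟩
      show β b y.toMul = β a y.toMul
      have e1 := h.hB (β b y.toMul)
      rw [← e1] at hy'
      exact (add_right_cancel hy').symm
    · rintro ⟨ha, hb⟩
      obtain ⟨s, hs⟩ := (h.mem_R a _).1 ha
      obtain ⟨s', hs'⟩ := (h.mem_R b _).1 hb
      obtain ⟨y, hy1, hy2⟩ := h.link a s b s' (hs.trans hs'.symm)
      refine ⟨⟨Additive.ofMul y, ?_⟩, ?_⟩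
      · show β (a * b) y = 0
        rw [h.mul', ← hy1, ← hy2, hs, hs', h.hB]
      · show β a y = t
        rw [← hy1, hs]
  have hk : Nat.card f.ker = Nat.card (h.V a ⊓ h.V b : AddSubgroup _) := by
    refine Nat.card_congr
      { toFun := fun z => ⟨z.1.1, ⟨z.2, ?_⟩⟩
        invFun := fun z => ⟨⟨z.1, ?_⟩, z.2.1⟩
        left_inv := fun z => rfl
        right_inv := fun z => rfl }
    · have h2 : β (a * b) z.1.1.toMul = 0 := z.1.2
      have h3 : β a z.1.1.toMul = 0 := z.2
      rw [h.mul', h3, zero_add] at h2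
      exact h2
    · have h2 : β a z.1.toMul = 0 := z.2.1
      have h3 : β b z.1.toMul = 0 := z.2.2
      show β (a * b) z.1.toMul = 0
      rw [h.mul', h2, h3, add_zero]
  rw [hr, hk] at h1
  exact h1

/-- the key identity -/
theorem Rows.card3 (h : Rows e β) (a b : G) :
    Nat.card (h.R (a * b)) * Nat.card (h.R a ⊓ h.R b : AddSubgroup B) *
      Nat.card (h.V a ⊓ h.V b : AddSubgroup _) = Nat.card G := by
  rw [← h.card1 (a * b), ← h.card2 a b]
  ring

theorem Rows.mul_cancel (h : Rows e β) (a b : G) : a * (a * b) = b := by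
  rw [← mul_assoc, h.exp, one_mul]

theorem Rows.V_inf1 (h : Rows e β) (a b : G) : h.V a ⊓ h.V (a * b) = h.V a ⊓ h.V b := by
  ext z
  constructor
  · rintro ⟨h1, h2⟩
    refine ⟨h1, ?_⟩
    have h1' : β a z.toMul = 0 := h1
    have h2' : β (a * b) z.toMul = 0 := h2
    rw [h.mul', h1', zero_add] at h2'
    exact h2'
  · rintro ⟨h1, h2⟩
    refine ⟨h1, ?_⟩
    have h1' : β a z.toMul = 0 := h1
    have h2' : β b z.toMul = 0 := h2
    show β (a * b) z.toMul = 0
    rw [h.mul', h1', h2', zero_add]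

/-- the identities -/
theorem Rows.ids (h : Rows e β) (x b : G) :
    Nat.card (h.R x) * Nat.card (h.R b ⊓ h.R (x * b) : AddSubgroup B) =
      Nat.card (h.R (x * b)) * Nat.card (h.R x ⊓ h.R b : AddSubgroup B) ∧
    Nat.card (h.R b) * Nat.card (h.R x ⊓ h.R (x * b) : AddSubgroup B) =
      Nat.card (h.R (x * b)) * Nat.card (h.R x ⊓ h.R b : AddSubgroup B) := by
  have hf : Finite (Additive G) := ‹Finite G›
  have h1 := h.card3 x b
  have h2 := h.card3 x (x * b)
  have h3 := h.card3 b (x * b)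
  have hpos : 0 < Nat.card (h.V x ⊓ h.V b : AddSubgroup _) := Nat.card_pos
  rw [h.mul_cancel, h.V_inf1] at h2
  have e1 : b * (x * b) = x := by rw [mul_comm x b, h.mul_cancel]
  have e2 : h.V b ⊓ h.V (x * b) = h.V x ⊓ h.V b := by
    rw [mul_comm x b, h.V_inf1, inf_comm]
  rw [e1, e2] at h3
  exact ⟨Nat.eq_of_mul_eq_mul_right hpos (h3.trans h1.symm),
    Nat.eq_of_mul_eq_mul_right hpos (h2.trans h1.symm)⟩

/-- row `c` takes at least four values modulo `X` -/
def Big (β : G → G → B) (X : AddSubgroup B) (c : G) : Prop :=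
  ∃ s s', β c s ∉ X ∧ β c s' ∉ X ∧ β c s + β c s' ∉ X

theorem not_big {X : AddSubgroup B} {c : G} (h : ¬ Big β X c) (s s' : G) (hs : β c s ∉ X) :
    β c s' ∈ X ∨ β c s + β c s' ∈ X := by
  by_contra hc
  push Not at hc
  exact h ⟨s, s', hs, hc.1, hc.2⟩

theorem Rows.aux (h : Rows e β) {X : AddSubgroup B} {u v w : B} (huv : u + v ∉ X)
    (h1 : w ∈ X ∨ u + w ∈ X) (h2 : w ∈ X ∨ v + w ∈ X) : w ∈ X := by
  rcases h1 with h1 | h1
  · exact h1
  rcases h2 with h2 | h2
  · exact h2
  exfalso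
  apply huv
  have h3 := X.add_mem h1 h2
  have e3 : u + w + (v + w) = u + v + (w + w) := by abel
  rwa [e3, h.hB, add_zero] at h3

theorem Rows.exists_big (h : Rows e β) (X : AddSubgroup B) {b t b' t' : G} (hu : β b t ∉ X)
    (hv : β b' t' ∉ X) (huv : β b t + β b' t' ∉ X) : ∃ c, Big β X c := by
  by_contra hcon
  push Not at hcon
  have h1 : β b t' ∈ X := by
    refine h.aux huv (not_big (hcon b) t t' hu) ?_
    have := not_big (hcon t') b' b (by rwa [h.sym])
    rwa [h.sym t' b, h.sym t' b'] at this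
  have h2 : β b' t ∈ X := by
    refine h.aux huv ?_ (not_big (hcon b') t' t hv)
    have := not_big (hcon t) b b' (by rwa [h.sym])
    rwa [h.sym t b, h.sym t b'] at this
  refine hcon (b * b') ⟨t, t', ?_, ?_, ?_⟩
  · rw [h.mul']
    intro h3
    exact hu ((AddSubgroup.add_mem_cancel_right X h2).1 h3)
  · rw [h.mul']
    intro h3
    exact hv ((AddSubgroup.add_mem_cancel_left X h1).1 h3)
  · rw [h.mul', h.mul']
    intro h3
    apply huv
    have e3 : β b t + β b' t + (β b t' + β b' t') = (β b t + β b' t') + (β b' t + β b t') := by abel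
    rw [e3] at h3
    exact (AddSubgroup.add_mem_cancel_right X (X.add_mem h2 h1)).1 h3

theorem Rows.exists_big' (h : Rows e β) (X : AddSubgroup B) {c t t' : G} (hc : β c c = 0)
    (hu : β c t ∉ X) (hv : β c t' ∉ X) (huv : β c t + β c t' ∉ X) :
    ∃ s, Big β X s ∧ β s c ∉ X := by
  by_contra hcon
  push Not at hcon
  have ht : β t c ∉ X := by rwa [h.sym]
  have ht' : β t' c ∉ X := by rwa [h.sym]
  have n1 : ¬ Big β X t := fun hb => ht (hcon t hb)
  have n2 : ¬ Big β X t' := fun hb => ht' (hcon t' hb)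
  have h1 : β t t' ∈ X := by
    refine h.aux huv ?_ ?_
    · have := not_big n1 c t' ht
      rwa [h.sym t c] at this
    · have := not_big n2 c t ht'
      rwa [h.sym t' c, h.sym t' t] at this
  have e1 : β (t * c) c = β c t := by rw [h.mul', hc, add_zero, h.sym]
  refine (e1 ▸ hu : β (t * c) c ∉ X) (hcon (t * c) ⟨c, t', ?_, ?_, ?_⟩)
  · rw [e1]; exact hu
  · rw [h.mul']
    intro h3
    exact hv ((AddSubgroup.add_mem_cancel_left X h1).1 h3)
  · rw [e1, h.mul']
    intro h3
    apply huv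
    have e3 : β c t + (β t t' + β c t') = β t t' + (β c t + β c t') := by abel
    rw [e3] at h3
    exact (AddSubgroup.add_mem_cancel_left X h1).1 h3

theorem Rows.big_card (h : Rows e β) (x : G) {c : G} (hb : Big β (h.R x) c) :
    4 * Nat.card (h.R x ⊓ h.R c : AddSubgroup B) ≤ Nat.card (h.R c) := by
  obtain ⟨s, s', h1, h2, h3⟩ := hb
  exact four_mul_card h.hB inferInstance inf_le_right (h.mem_R' c s) (h.mem_R' c s')
    (fun h4 => h1 h4.1) (fun h4 => h2 h4.1) (fun h4 => h3 h4.1)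

theorem Rows.range_sub (h : Rows e β) (a : G) : (h.R a : Set B) ⊆ {t | ∃ a b, β a b = t} := by
  rintro t ht
  obtain ⟨b, hb⟩ := (h.mem_R a t).1 ht
  exact ⟨a, b, hb⟩

theorem fin_vals (β : G → G → B) : {t | ∃ a b, β a b = t}.Finite := by
  have : {t | ∃ a b, β a b = t} = Set.range (fun p : G × G => β p.1 p.2) := by
    ext t
    constructor
    · rintro ⟨a, b, h⟩
      exact ⟨(a, b), h⟩
    · rintro ⟨p, h⟩
      exact ⟨p.1, p.2, h⟩
  rw [this]
  exact Set.finite_range _

theorem Rows.count (h : Rows e β) (x b : G) :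
    Nat.card (h.R x) + Nat.card (h.R b) + Nat.card (h.R (x * b)) + 1 ≤
      {t | ∃ a b, β a b = t}.ncard + Nat.card (h.R x ⊓ h.R b : AddSubgroup B) +
      Nat.card (h.R x ⊓ h.R (x * b) : AddSubgroup B) +
      Nat.card (h.R b ⊓ h.R (x * b) : AddSubgroup B) :=
  count3 _ _ _ inferInstance inferInstance inferInstance _ (fin_vals β) (h.range_sub _)
    (h.range_sub _) (h.range_sub _)

theorem pow_cases {n k N : ℕ} (h : n = 2 ^ k) (hn : n ≤ N) (hN : N < 32) :
    n = 1 ∨ n = 2 ∨ n = 4 ∨ n = 8 ∨ n = 16 := by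
  have : k < 5 := by
    by_contra hc
    have : 2 ^ 5 ≤ 2 ^ k := Nat.pow_le_pow_right (by norm_num) (by omega)
    omega
  interval_cases k <;> simp at h <;> omega

end rows

end Pool.Agent.Q120.EQ
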