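import Pool.Agent.Q120.EQ.Cnt

set_option autoImplicit false
set_option linter.all false

/-! At most eighteen quaternions -/

namespace Pool.Agent.Q120.EQ

open Pool.Agent.H315R3.ETC Pool.Agent.TH188.ETV

universe v w

variable {G : Type w} [CommGroup G] {B : Type v} [AddCommGroup B] {e : G} {β : G → G → B} [Finite G]

theorem Rows.types (h : Rows e β) (hQ : {t | ∃ a b, β a b = t}.ncard ≤ 18) (x c : G)
    (hx : Nat.card (h.R x) = 8) (hmax : ∀ a, Nat.card (h.R a) ≤ 8) (hb : Big β (h.R x) c) :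
    Nat.card (h.R c ⊓ h.R (x * c) : AddSubgroup B) = 1 ∧
    ((Nat.card (h.R c) = 8 ∧ Nat.card (h.R (x * c)) = 4 ∧
        Nat.card (h.R x ⊓ h.R c : AddSubgroup B) = 2 ∧
        Nat.card (h.R x ⊓ h.R (x * c) : AddSubgroup B) = 1) ∨
     (Nat.card (h.R c) = 4 ∧ Nat.card (h.R (x * c)) = 8 ∧
        Nat.card (h.R x ⊓ h.R c : AddSubgroup B) = 1 ∧
        Nat.card (h.R x ⊓ h.R (x * c) : AddSubgroup B) = 2)) := by
  obtain ⟨i1, i2⟩ := h.ids x c
  have h1 := h.big_card x hb
  have h2 := h.count x c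
  obtain ⟨k1, e1⟩ := pow_two_card h.hB (h.R c) inferInstance
  obtain ⟨k2, e2⟩ := pow_two_card h.hB (h.R (x * c)) inferInstance
  have hle : Nat.card (h.R x ⊓ h.R c : AddSubgroup B) ≤ Nat.card (h.R c) :=
    AddSubgroup.card_le_of_le inf_le_right
  have hfi : Finite (h.R x ⊓ h.R c : AddSubgroup B) :=
    Finite.of_injective _ (AddSubgroup.inclusion_injective (inf_le_right : h.R x ⊓ h.R c ≤ h.R c))
  obtain ⟨k3, e3⟩ := pow_two_card h.hB (h.R x ⊓ h.R c) hfi
  have c1 := pow_cases e1 (hmax c) (by norm_num)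
  have c2 := pow_cases e2 (hmax _) (by norm_num)
  have c3 := pow_cases e3 (hle.trans (hmax _)) (by norm_num)
  have m1 := hmax c
  have m2 := hmax (x * c)
  rw [hx] at i1 h2
  clear e1 e2 e3 hx hb hmax
  generalize Nat.card (h.R c) = p at *
  generalize Nat.card (h.R (x * c)) = r at *
  generalize Nat.card (h.R x ⊓ h.R c : AddSubgroup B) = g at *
  generalize Nat.card (h.R x ⊓ h.R (x * c) : AddSubgroup B) = s at *
  generalize Nat.card (h.R c ⊓ h.R (x * c) : AddSubgroup B) = a at *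
  generalize {t | ∃ a b, β a b = t}.ncard = q at *
  rcases c1 with rfl | rfl | rfl | rfl | rfl <;> rcases c3 with rfl | rfl | rfl | rfl | rfl <;>
    first
      | omega
      | (rcases c2 with rfl | rfl | rfl | rfl | rfl <;> omega)

theorem card_sup_zm (hB : ∀ b : B, b + b = 0) (X : AddSubgroup B) (hf : Finite X) (u : B) :
    Finite (X ⊔ AddSubgroup.zmultiples u : AddSubgroup B) ∧
    Nat.card (X ⊔ AddSubgroup.zmultiples u : AddSubgroup B) ≤ 2 * Nat.card X := by
  have hsub : ((X ⊔ AddSubgroup.zmultiples u : AddSubgroup B) : Set B) ⊆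
      (X : Set B) ∪ (fun b => u + b) '' (X : Set B) := by
    intro v hv
    rcases mem_sup_zm hB X u v hv with h | h
    · exact Or.inl h
    · refine Or.inr ⟨u + v, h, ?_⟩
      show u + (u + v) = v
      rw [← add_assoc, hB, zero_add]
  have fX : (X : Set B).Finite := Set.toFinite _
  have fU : ((X : Set B) ∪ (fun b => u + b) '' (X : Set B)).Finite := fX.union (fX.image _)
  refine ⟨(fU.subset hsub).to_subtype, ?_⟩
  have h1 := Set.ncard_le_ncard hsub fU
  have h2 := Set.ncard_union_le (X : Set B) ((fun b => u + b) '' (X : Set B))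
  have h3 := Set.ncard_image_le (f := fun b => u + b) fX
  have e : ∀ H : AddSubgroup B, Nat.card H = (H : Set B).ncard := fun H => rfl
  rw [e, e]
  omega

theorem Rows.no_big (h : Rows e β) (he : e * e = 1)
    (hQ : {t | ∃ a b, β a b = t}.ncard ≤ 18) (x c : G)
    (hx : Nat.card (h.R x) = 8) (hmax : ∀ a, Nat.card (h.R a) ≤ 8) (hb : Big β (h.R x) c) :
    False := by
  have hfG : Finite (Additive G) := ‹Finite G›
  obtain ⟨d, hd8, hc4, hint, hV⟩ : ∃ d, Nat.card (h.R d) = 8 ∧ Nat.card (h.R (x * d)) = 4 ∧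
      Nat.card (h.R x ⊓ h.R (x * d) : AddSubgroup B) = 1 ∧ h.V x ≤ h.V d := by
    have hVc : h.V x ≤ h.V c := by
      have h3 := h.card3 x c
      have h4 := h.card1 x
      have h5 : h.V x ⊓ h.V c = h.V x := by
        refine AddSubgroup.eq_of_le_of_card_ge inf_le_left ?_
        rw [hx] at h4
        obtain ⟨-, ⟨a1, a2, a3, a4⟩ | ⟨a1, a2, a3, a4⟩⟩ := h.types hQ x c hx hmax hb
        · rw [a2, a3] at h3; omega
        · rw [a2, a3] at h3; omega
      exact inf_eq_left.1 h5
    obtain ⟨-, ⟨a1, a2, a3, a4⟩ | ⟨a1, a2, a3, a4⟩⟩ := h.types hQ x c hx hmax hb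
    · exact ⟨c, a1, a2, a4, hVc⟩
    · refine ⟨x * c, a2, ?_, ?_, ?_⟩
      · rw [h.mul_cancel]; exact a1
      · rw [h.mul_cancel]; exact a3
      · intro z hz
        have z1 : β x z.toMul = 0 := hz
        have z2 : β c z.toMul = 0 := hVc hz
        show β (x * c) z.toMul = 0
        rw [h.mul', z1, z2, add_zero]
  have hVeq : h.V x = h.V d := by
    refine AddSubgroup.eq_of_le_of_card_ge hV ?_
    have h1 := h.card1 x
    have h2 := h.card1 d
    rw [hx] at h1
    rw [hd8] at h2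
    omega
  have hxc : β x (x * d) = 0 := by
    have h1 : β x (e * x) = 0 := h.neg x
    have h2 : β x (e * d) = 0 := by
      have : Additive.ofMul (e * d) ∈ h.V d := h.neg d
      rw [← hVeq] at this
      exact this
    have h3 : x * d = (e * x) * (e * d) := by
      rw [mul_mul_mul_comm, he, one_mul]
    rw [h3, h.mul, h1, h2, add_zero]
  have hcc : β (x * d) (x * d) = 0 := by
    rw [h.mul', hxc, zero_add]
    exact hV (show Additive.ofMul (x * d) ∈ h.V x from hxc)
  have ebot : h.R x ⊓ h.R (x * d) = ⊥ := (AddSubgroup.card_eq_one).1 hint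
  have key : ∀ t, t ∈ h.R (x * d) → t ≠ 0 → t ∉ h.R x := by
    intro t ht h0 hx'
    have : t ∈ h.R x ⊓ h.R (x * d) := ⟨hx', ht⟩
    rw [ebot] at this
    exact h0 this
  obtain ⟨u, hu, hu0⟩ : ∃ u ∈ (h.R (x * d) : Set B), u ∉ ({0} : Set B) := by
    refine Set.exists_mem_notMem_of_ncard_lt_ncard ?_ (Set.toFinite _)
    rw [Set.ncard_singleton]
    have : (h.R (x * d) : Set B).ncard = 4 := hc4
    omega
  obtain ⟨v, hv, hv0⟩ : ∃ u' ∈ (h.R (x * d) : Set B), u' ∉ ({0, u} : Set B) := by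
    refine Set.exists_mem_notMem_of_ncard_lt_ncard ?_ (Set.toFinite _)
    have h1 : (h.R (x * d) : Set B).ncard = 4 := hc4
    have h2 := Set.ncard_insert_le (0 : B) {u}
    rw [Set.ncard_singleton] at h2
    omega
  have hu0' : u ≠ 0 := fun h => hu0 h
  have hv0' : v ≠ 0 := fun h => hv0 (Or.inl h)
  have hvu : v ≠ u := fun h => hv0 (Or.inr h)
  obtain ⟨t, ht⟩ := (h.mem_R (x * d) u).1 hu
  obtain ⟨t', ht'⟩ := (h.mem_R (x * d) v).1 hv
  obtain ⟨s, hs1, hs2⟩ := h.exists_big' (h.R x) (c := x * d) (t := t) (t' := t') hcc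
    (by rw [ht]; exact key u hu hu0') (by rw [ht']; exact key v hv hv0')
    (by
      rw [ht, ht']
      refine key _ (AddSubgroup.add_mem _ hu hv) ?_
      intro h0
      apply hvu
      have h1 := h.hB u
      rw [← h0] at h1
      exact (add_left_cancel h1).symm)
  obtain ⟨hs3, -⟩ := h.types hQ x s hx hmax hs1
  have ebot2 : h.R s ⊓ h.R (x * s) = ⊥ := (AddSubgroup.card_eq_one).1 hs3
  have : β s (x * d) ∈ h.R s ⊓ h.R (x * s) := by
    refine ⟨h.mem_R' _ _, (h.mem_R _ _).2 ⟨x * d, ?_⟩⟩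
    rw [h.mul' x s, hxc, zero_add]
  rw [ebot2] at this
  have h0 : β s (x * d) = 0 := this
  exact hs2 (by rw [h0]; exact AddSubgroup.zero_mem _)

theorem Rows.main (h : Rows e β) (he : e * e = 1)
    (hQ : {t | ∃ a b, β a b = t}.ncard ≤ 18) :
    (∀ a, Nat.card (h.R a) ≤ 4) ∨ ∃ C : AddSubgroup B, Finite C ∧ Nat.card C ≤ 16 ∧
      ∀ a b, β a b ∈ C := by
  by_cases h4 : ∀ a, Nat.card (h.R a) ≤ 4
  · exact Or.inl h4
  right
  push Not at h4
  obtain ⟨a0, ha0⟩ := h4
  obtain ⟨x, hx⟩ := Finite.exists_max (fun a => Nat.card (h.R a))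
  have hx4 : 4 < Nat.card (h.R x) := lt_of_lt_of_le ha0 (hx a0)
  obtain ⟨k, hk⟩ := pow_two_card h.hB (h.R x) inferInstance
  have hx18 : Nat.card (h.R x) ≤ 18 :=
    (Set.ncard_le_ncard (h.range_sub x) (fin_vals β)).trans hQ
  rcases pow_cases hk hx18 (by norm_num) with h1 | h1 | h1 | h1 | h1
  · omega
  · omega
  · omega
  · -- eight
    have hmax : ∀ a, Nat.card (h.R a) ≤ 8 := fun a => h1 ▸ hx a
    have nb : ∀ c, ¬ Big β (h.R x) c := fun c hc => h.no_big he hQ x c h1 hmax hc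
    by_cases hall : ∀ a b, β a b ∈ h.R x
    · exact ⟨h.R x, inferInstance, by omega, hall⟩
    push Not at hall
    obtain ⟨a, b, hab⟩ := hall
    obtain ⟨hf, hc⟩ := card_sup_zm h.hB (h.R x) inferInstance (β a b)
    refine ⟨h.R x ⊔ AddSubgroup.zmultiples (β a b), hf, by omega, ?_⟩
    intro a' b'
    by_contra hcon
    have g1 : β a' b' ∉ h.R x := fun h' => hcon (AddSubgroup.mem_sup_left h')
    have g2 : β a b + β a' b' ∉ h.R x := by
      intro h'
      apply hcon
      have e1 : β a' b' = (β a b + β a' b') + β a b := by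
        rw [add_comm (β a b + β a' b'), ← add_assoc, h.hB, zero_add]
      rw [e1]
      exact AddSubgroup.add_mem _ (AddSubgroup.mem_sup_left h')
        (AddSubgroup.mem_sup_right (AddSubgroup.mem_zmultiples _))
    obtain ⟨c, hc⟩ := h.exists_big (h.R x) hab g1 g2
    exact nb c hc
  · -- sixteen
    refine ⟨h.R x, inferInstance, by omega, ?_⟩
    intro b t
    by_contra hbt
    obtain ⟨i1, i2⟩ := h.ids x b
    have h3 := h.count x b
    have h5 : 2 * Nat.card (h.R x ⊓ h.R b : AddSubgroup B) ≤ Nat.card (h.R b) :=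
      two_mul_card inferInstance inf_le_right (h.mem_R' b t) (fun h' => hbt h'.1)
    obtain ⟨k1, e1⟩ := pow_two_card h.hB (h.R b) inferInstance
    obtain ⟨k2, e2⟩ := pow_two_card h.hB (h.R (x * b)) inferInstance
    have hle : Nat.card (h.R x ⊓ h.R b : AddSubgroup B) ≤ Nat.card (h.R b) :=
      AddSubgroup.card_le_of_le inf_le_right
    have hfi : Finite (h.R x ⊓ h.R b : AddSubgroup B) :=
      Finite.of_injective _ (AddSubgroup.inclusion_injective (inf_le_right : h.R x ⊓ h.R b ≤ h.R b))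
    obtain ⟨k3, e3⟩ := pow_two_card h.hB (h.R x ⊓ h.R b) hfi
    have m1 : Nat.card (h.R b) ≤ 16 := h1 ▸ hx b
    have m2 : Nat.card (h.R (x * b)) ≤ 16 := h1 ▸ hx (x * b)
    have c1 := pow_cases e1 m1 (by norm_num)
    have c2 := pow_cases e2 m2 (by norm_num)
    have c3 := pow_cases e3 (hle.trans m1) (by norm_num)
    rw [h1] at i1 h3
    clear e1 e2 e3 hx hx4 hx18 hk ha0
    generalize Nat.card (h.R b) = p at *
    generalize Nat.card (h.R (x * b)) = r at *
    generalize Nat.card (h.R x ⊓ h.R b : AddSubgroup B) = g at *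
    generalize Nat.card (h.R x ⊓ h.R (x * b) : AddSubgroup B) = s at *
    generalize Nat.card (h.R b ⊓ h.R (x * b) : AddSubgroup B) = a at *
    generalize {t | ∃ a b, β a b = t}.ncard = q at *
    rcases c1 with rfl | rfl | rfl | rfl | rfl <;> rcases c3 with rfl | rfl | rfl | rfl | rfl <;>
      first
        | omega
        | (rcases c2 with rfl | rfl | rfl | rfl | rfl <;> omega)

end Pool.Agent.Q120.EQ
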